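import Pool.Agent.Helper21.CU.St

/-!
# CU module EUL: the sum of `√(a/φ(a)) √ρ(a)/a` over smooth `a`
-/

set_option autoImplicit false

open Finset

noncomputable section

namespace Pool.Agent.Helper91.CU
open Pool.Agent.Helper21.CU

/-- the summand -/
def fe (k : ℤ) (a : ℕ) : ℝ := √((a : ℝ) / Nat.totient a) * √((R k a).card : ℝ) / a

lemma fe_nonneg (k : ℤ) (a : ℕ) : 0 ≤ fe k a := by
  unfold fe; positivity

lemma R_one (k : ℤ) : (R k 1).card = 1 := by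
  unfold R
  simp

lemma fe_one (k : ℤ) : fe k 1 = 1 := by
  unfold fe
  rw [R_one]
  simp

lemma fe_zero (k : ℤ) : fe k 0 = 0 := by
  unfold fe; simp

lemma fe_mul (h1 : StCRT) (k : ℤ) (a b : ℕ) (hab : a.Coprime b) : fe k (a * b) = fe k a * fe k b := by
  rcases Nat.eq_zero_or_pos a with ha | ha
  · subst ha
    rw [zero_mul, fe_zero, zero_mul]
  rcases Nat.eq_zero_or_pos b with hb | hb
  · subst hb
    rw [mul_zero, fe_zero, mul_zero]
  unfold fe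
  rw [(h1 k a b ha hb hab).1, Nat.totient_mul hab]
  have e0 : (((a * b : ℕ) : ℝ)) / ((a.totient * b.totient : ℕ) : ℝ) =
      ((a : ℝ) / a.totient) * ((b : ℝ) / b.totient) := by
    push_cast
    rw [mul_div_mul_comm]
  rw [e0, Real.sqrt_mul (by positivity)]
  push_cast
  rw [Real.sqrt_mul (by positivity : (0 : ℝ) ≤ ((R k a).card : ℝ))]
  have ha' : (a : ℝ) ≠ 0 := by positivity
  have hb' : (b : ℝ) ≠ 0 := by positivity
  field_simp

/-- value at prime powers -/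
lemma fe_pow (k : ℤ) (p j M : ℕ) (hp : p.Prime) (hj : 1 ≤ j) (hM : (R k (p ^ j)).card ≤ M) :
    fe k (p ^ j) ≤ (p : ℝ) / (p - 1) * √(M : ℝ) * (1 / (p : ℝ)) ^ j := by
  have hp2 : (2 : ℝ) ≤ p := by exact_mod_cast hp.two_le
  have hp0 : (0 : ℝ) < p := by linarith
  have hp1 : (0 : ℝ) < (p : ℝ) - 1 := by linarith
  unfold fe
  have e1 : (((p ^ j : ℕ) : ℝ) / Nat.totient (p ^ j)) = (p : ℝ) / (p - 1) := by
    rw [Nat.totient_prime_pow hp (by omega)]
    obtain ⟨i, rfl⟩ : ∃ i, j = i + 1 := ⟨j - 1, by omega⟩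
    rw [Nat.add_sub_cancel]
    push_cast
    rw [Nat.cast_sub hp.one_le, Nat.cast_one, pow_succ]
    field_simp
  rw [e1]
  have e2 : √((p : ℝ) / (p - 1)) ≤ (p : ℝ) / (p - 1) := by
    have h1 : (1 : ℝ) ≤ (p : ℝ) / (p - 1) := by
      rw [le_div_iff₀ hp1]; linarith
    rw [Real.sqrt_le_left (by linarith)]
    nlinarith
  have e3 : √((R k (p ^ j)).card : ℝ) ≤ √(M : ℝ) := Real.sqrt_le_sqrt (by exact_mod_cast hM)
  have e4 : (1 / (p : ℝ)) ^ j = 1 / ((p ^ j : ℕ) : ℝ) := by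
    push_cast
    rw [div_pow, one_pow]
  rw [e4, mul_one_div]
  apply div_le_div_of_nonneg_right _ (by positivity)
  exact mul_le_mul e2 e3 (Real.sqrt_nonneg _) (by positivity)

lemma geo (p A : ℕ) (hp : p.Prime) : ∑ j ∈ Icc 1 A, (1 / (p : ℝ)) ^ j ≤ 1 / ((p : ℝ) - 1) := by
  have hp2 : (2 : ℝ) ≤ p := by exact_mod_cast hp.two_le
  have hp1 : (0 : ℝ) < (p : ℝ) - 1 := by linarith
  have h : ∀ n : ℕ, ∑ j ∈ Icc 1 n, (1 / (p : ℝ)) ^ j = 1 / ((p : ℝ) - 1) * (1 - (1 / (p : ℝ)) ^ n) := by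
    intro n
    induction n with
    | zero => simp
    | succ n ih =>
      rw [Finset.sum_Icc_succ_top (by omega), ih, pow_succ]
      field_simp
      ring
  rw [h]
  have h2 : 0 ≤ (1 / (p : ℝ)) ^ A := by positivity
  have h3 : 0 < 1 / ((p : ℝ) - 1) := by positivity
  nlinarith

lemma sum_fe (k : ℤ) (p A M : ℕ) (hp : p.Prime) (hM : ∀ j, 1 ≤ j → (R k (p ^ j)).card ≤ M) :
    ∑ j ∈ Icc 1 A, fe k (p ^ j) ≤ √(M : ℝ) * ((p : ℝ) / (p - 1) ^ 2) := by
  have hp2 : (2 : ℝ) ≤ p := by exact_mod_cast hp.two_le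
  have hp1 : (0 : ℝ) < (p : ℝ) - 1 := by linarith
  calc ∑ j ∈ Icc 1 A, fe k (p ^ j)
      ≤ ∑ j ∈ Icc 1 A, (p : ℝ) / (p - 1) * √(M : ℝ) * (1 / (p : ℝ)) ^ j := by
        apply Finset.sum_le_sum
        intro j hj
        rw [Finset.mem_Icc] at hj
        exact fe_pow k p j M hp hj.1 (hM j hj.1)
    _ = (p : ℝ) / (p - 1) * √(M : ℝ) * ∑ j ∈ Icc 1 A, (1 / (p : ℝ)) ^ j := by
        rw [Finset.mul_sum]
    _ ≤ (p : ℝ) / (p - 1) * √(M : ℝ) * (1 / ((p : ℝ) - 1)) := by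
        apply mul_le_mul_of_nonneg_left (geo p A hp)
        positivity
    _ = √(M : ℝ) * ((p : ℝ) / (p - 1) ^ 2) := by
        field_simp

lemma frac_bd (p : ℕ) (hp : p.Prime) : (p : ℝ) / (p - 1) ^ 2 ≤ 1 / p + 8 * (1 / (p : ℝ) ^ 2) := by
  have hp2 : (2 : ℝ) ≤ p := by exact_mod_cast hp.two_le
  have hp1 : (0 : ℝ) < (p : ℝ) - 1 := by linarith
  have hp0 : (0 : ℝ) < p := by linarith
  have e : 1 / (p : ℝ) + 8 * (1 / (p : ℝ) ^ 2) = (p + 8) / (p : ℝ) ^ 2 := by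
    field_simp
  rw [e, div_le_div_iff₀ (by positivity) (by positivity)]
  obtain ⟨t, ht⟩ : ∃ t : ℝ, (p : ℝ) = t + 2 := ⟨p - 2, by ring⟩
  have ht0 : 0 ≤ t := by linarith
  rw [ht]
  nlinarith [mul_nonneg ht0 ht0]

lemma frac_two (p : ℕ) (hp : p.Prime) : (p : ℝ) / (p - 1) ^ 2 ≤ 2 := by
  have hp2 : (2 : ℝ) ≤ p := by exact_mod_cast hp.two_le
  have hp1 : (0 : ℝ) < (p : ℝ) - 1 := by linarith
  rw [div_le_iff₀ (by positivity)]
  nlinarith

lemma sum_sq (N : ℕ) : ∑ n ∈ Icc 1 N, 1 / (n : ℝ) ^ 2 ≤ 2 := by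
  have h : ∀ n : ℕ, ∑ j ∈ Icc 1 (n + 1), 1 / (j : ℝ) ^ 2 ≤ 2 - 1 / ((n : ℝ) + 1) := by
    intro n
    induction n with
    | zero => norm_num
    | succ n ih =>
      rw [Finset.sum_Icc_succ_top (by omega)]
      have e : 1 / (((n + 1 + 1 : ℕ)) : ℝ) ^ 2 ≤ 1 / ((n : ℝ) + 1) - 1 / ((n : ℝ) + 2) := by
        have h1 : 1 / ((n : ℝ) + 1) - 1 / ((n : ℝ) + 2) = 1 / (((n : ℝ) + 1) * ((n : ℝ) + 2)) := by
          field_simp
          ring
        rw [h1]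
        apply one_div_le_one_div_of_le (by positivity)
        push_cast
        nlinarith
      have e2 : (((n + 1 : ℕ)) : ℝ) + 1 = (n : ℝ) + 2 := by push_cast; ring
      rw [e2]
      linarith
  rcases N with _ | n
  · simp
  · have := h n
    have h2 : 0 ≤ 1 / ((n : ℝ) + 1) := by positivity
    linarith

open scoped Classical in
theorem hEUL (h1 : StCRT) (h2 : StPP) (h3 : StMUL) (h4 : StSR) : StEUL := by
  intro k hk
  have hk0 : k ≠ 0 := by
    intro h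
    exact hk 0 (by rw [h]; norm_num)
  obtain ⟨C, hC, hSR⟩ := h4 k hk
  obtain ⟨K, hK⟩ : ∃ K : ℕ, K = (3 * k.natAbs) ^ 3 := ⟨_, rfl⟩
  refine ⟨Real.exp (C + 32 + 2 * √(K : ℝ) * (3 * k.natAbs : ℕ)), Real.exp_pos _, ?_⟩
  intro z hz A
  have hlz : 0 < Real.log z := Real.log_pos (by linarith)
  obtain ⟨P, hP⟩ : ∃ P : Finset ℕ, P = (Icc 1 ⌊z⌋₊).filter Nat.Prime := ⟨_, rfl⟩
  have hPp : ∀ p ∈ P, p.Prime := by
    intro p hp
    rw [hP, Finset.mem_filter] at hp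
    exact hp.2
  have hm := h3 (fe k) (fe_nonneg k) (fe_one k) (fe_mul h1 k) P A hPp
  have hle : ∑ a ∈ (Icc 1 A).filter (fun a : ℕ => ∀ p : ℕ, p.Prime → p ∣ a → (p : ℝ) ≤ z),
      √((a : ℝ) / Nat.totient a) * √((R k a).card : ℝ) / a ≤
      ∏ p ∈ P, (1 + ∑ j ∈ Icc 1 A, fe k (p ^ j)) := by
    refine le_trans (le_of_eq ?_) hm
    apply Finset.sum_congr
    · apply Finset.filter_congr
      intro a _
      constructor
      · intro h p hp hpa
        rw [hP, Finset.mem_filter, Finset.mem_Icc]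
        exact ⟨⟨hp.one_le, Nat.le_floor (h p hp hpa)⟩, hp⟩
      · intro h p hp hpa
        have h5 := h p hp hpa
        rw [hP, Finset.mem_filter, Finset.mem_Icc] at h5
        exact (Nat.le_floor_iff (by linarith)).mp h5.1.2
    · intro a _
      rfl
  refine le_trans hle ?_
  have hfac : ∀ p ∈ P, 1 + ∑ j ∈ Icc 1 A, fe k (p ^ j) ≤
      Real.exp (√((R k p).card : ℝ) / p + 16 * (1 / (p : ℝ) ^ 2) +
        (if (p : ℤ) ∣ 3 * k then 2 * √(K : ℝ) else 0)) := by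
    intro p hp
    have hpp := hPp p hp
    have hp0 : (0 : ℝ) < p := by exact_mod_cast hpp.pos
    refine le_trans ?_ (Real.add_one_le_exp _)
    by_cases hd : (p : ℤ) ∣ 3 * k
    · rw [if_pos hd]
      have h5 := sum_fe k p A K hpp (fun j hj => by rw [hK]; exact (h2 k hk0 p j hpp hj).2 hd)
      have h6 : √(K : ℝ) * ((p : ℝ) / (p - 1) ^ 2) ≤ √(K : ℝ) * 2 :=
        mul_le_mul_of_nonneg_left (frac_two p hpp) (Real.sqrt_nonneg _)
      have h7 : 0 ≤ √((R k p).card : ℝ) / p := by positivity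
      have h8 : 0 ≤ 16 * (1 / (p : ℝ) ^ 2) := by positivity
      linarith
    · rw [if_neg hd]
      have h5 := sum_fe k p A (R k p).card hpp (fun j hj => ((h2 k hk0 p j hpp hj).1 hd).1)
      have h6 : √((R k p).card : ℝ) * ((p : ℝ) / (p - 1) ^ 2) ≤
          √((R k p).card : ℝ) * (1 / p + 8 * (1 / (p : ℝ) ^ 2)) :=
        mul_le_mul_of_nonneg_left (frac_bd p hpp) (Real.sqrt_nonneg _)
      have h9 : √((R k p).card : ℝ) ≤ 2 := by
        rw [Real.sqrt_le_left (by norm_num)]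
        have h10 : ((R k p).card : ℝ) ≤ 3 := by
          exact_mod_cast ((h2 k hk0 p 1 hpp le_rfl).1 hd).2
        linarith
      have h11 : √((R k p).card : ℝ) * (8 * (1 / (p : ℝ) ^ 2)) ≤ 2 * (8 * (1 / (p : ℝ) ^ 2)) :=
        mul_le_mul_of_nonneg_right h9 (by positivity)
      have h12 : √((R k p).card : ℝ) * (1 / p + 8 * (1 / (p : ℝ) ^ 2)) =
          √((R k p).card : ℝ) / p + √((R k p).card : ℝ) * (8 * (1 / (p : ℝ) ^ 2)) := by ring
      linarith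
  have hprod : ∏ p ∈ P, (1 + ∑ j ∈ Icc 1 A, fe k (p ^ j)) ≤
      ∏ p ∈ P, Real.exp (√((R k p).card : ℝ) / p + 16 * (1 / (p : ℝ) ^ 2) +
        (if (p : ℤ) ∣ 3 * k then 2 * √(K : ℝ) else 0)) := by
    apply Finset.prod_le_prod
    · intro p _
      have : 0 ≤ ∑ j ∈ Icc 1 A, fe k (p ^ j) := Finset.sum_nonneg (fun j _ => fe_nonneg k _)
      linarith
    · exact hfac
  refine le_trans hprod ?_
  rw [← Real.exp_sum, Finset.sum_add_distrib, Finset.sum_add_distrib, Real.rpow_def_of_pos hlz,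
    ← Real.exp_add]
  apply Real.exp_le_exp.mpr
  have g1 : ∑ p ∈ P, √((R k p).card : ℝ) / p ≤ 4 / 5 * Real.log (Real.log z) + C := by
    rw [hP]; exact hSR z hz
  have g2 : ∑ p ∈ P, 16 * (1 / (p : ℝ) ^ 2) ≤ 32 := by
    rw [← Finset.mul_sum]
    have h5 : ∑ p ∈ P, 1 / (p : ℝ) ^ 2 ≤ ∑ p ∈ Icc 1 ⌊z⌋₊, 1 / (p : ℝ) ^ 2 := by
      apply Finset.sum_le_sum_of_subset_of_nonneg
      · rw [hP]; exact Finset.filter_subset _ _
      · intro i _ _; positivity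
    have h6 := sum_sq ⌊z⌋₊
    linarith
  have g3 : ∑ p ∈ P, (if (p : ℤ) ∣ 3 * k then 2 * √(K : ℝ) else 0) ≤
      2 * √(K : ℝ) * (3 * k.natAbs : ℕ) := by
    rw [← Finset.sum_filter, Finset.sum_const, nsmul_eq_mul, mul_comm]
    apply mul_le_mul_of_nonneg_left _ (by positivity)
    have h5 : (P.filter (fun p : ℕ => (p : ℤ) ∣ 3 * k)).card ≤ (Icc 1 (3 * k.natAbs)).card := by
      apply Finset.card_le_card
      intro p hp
      rw [Finset.mem_filter] at hp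
      rw [Finset.mem_Icc]
      refine ⟨(hPp p hp.1).one_le, ?_⟩
      have h6 := Int.natAbs_dvd_natAbs.mpr hp.2
      rw [Int.natAbs_natCast, Int.natAbs_mul] at h6
      have h7 : 0 < k.natAbs := Int.natAbs_pos.mpr hk0
      exact Nat.le_of_dvd (by positivity) h6
    rw [Nat.card_Icc, Nat.add_sub_cancel] at h5
    exact_mod_cast h5
  linarith

end Pool.Agent.Helper91.CU
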